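import Pool.Agent.R684.FP.Main

/-!
# Graph products of cyclic groups: the kernel of the retraction which kills a module
-/

set_option autoImplicit false

open scoped Classical

noncomputable section

namespace Pool.Agent.W2helper32.GP

section base

variable {V : Type}

/-- the relators of the graph product of cyclic groups of orders `n v` (infinite for `n v = 0`) -/
def rels (Λ : SimpleGraph V) (n : V → ℕ) : Set (FreeGroup V) :=
  {r | (∃ v, r = FreeGroup.of v ^ n v) ∨ ∃ v w, Λ.Adj v w ∧
    r = FreeGroup.of v * FreeGroup.of w * (FreeGroup.of v)⁻¹ * (FreeGroup.of w)⁻¹}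

/-- the graph product of cyclic groups of orders `n v` (infinite for `n v = 0`) -/
abbrev Gp (Λ : SimpleGraph V) (n : V → ℕ) : Type := PresentedGroup (rels Λ n)

variable (Λ : SimpleGraph V) (n : V → ℕ)

/-- the generators -/
def x (v : V) : Gp Λ n := PresentedGroup.of v

variable {Λ n}

theorem x_pow (v : V) : x Λ n v ^ n v = 1 := by
  have h := PresentedGroup.one_of_mem (rels := rels Λ n) (x := FreeGroup.of v ^ n v)
    (Or.inl ⟨v, rfl⟩)
  rw [map_pow] at h
  exact h

theorem x_comm {v w : V} (h : Λ.Adj v w) : x Λ n v * x Λ n w = x Λ n w * x Λ n v := by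
  have h1 := PresentedGroup.one_of_mem (rels := rels Λ n)
    (x := FreeGroup.of v * FreeGroup.of w * (FreeGroup.of v)⁻¹ * (FreeGroup.of w)⁻¹)
    (Or.inr ⟨v, w, h, rfl⟩)
  rw [map_mul, map_mul, map_mul, map_inv, map_inv] at h1
  change x Λ n v * x Λ n w * (x Λ n v)⁻¹ * (x Λ n w)⁻¹ = 1 at h1
  rw [mul_inv_eq_one, mul_inv_eq_iff_eq_mul] at h1
  exact h1

variable {H : Type} [Group H]

/-- homomorphisms from the graph product -/
def lift (f : V → H) (h1 : ∀ v, f v ^ n v = 1) (h2 : ∀ v w, Λ.Adj v w → f v * f w = f w * f v) :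
    Gp Λ n →* H :=
  PresentedGroup.toGroup (f := f) (by
    rintro r (⟨v, rfl⟩ | ⟨v, w, h, rfl⟩)
    · rw [map_pow, FreeGroup.lift_apply_of, h1]
    · simp only [map_mul, map_inv, FreeGroup.lift_apply_of]
      rw [mul_inv_eq_one, mul_inv_eq_iff_eq_mul, h2 v w h])

theorem lift_x (f : V → H) (h1 : ∀ v, f v ^ n v = 1)
    (h2 : ∀ v w, Λ.Adj v w → f v * f w = f w * f v) (v : V) : lift f h1 h2 (x Λ n v) = f v :=
  PresentedGroup.toGroup.of _

theorem hom_ext {f g : Gp Λ n →* H} (h : ∀ v, f (x Λ n v) = g (x Λ n v)) : f = g :=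
  PresentedGroup.ext h

theorem gen : Subgroup.closure (Set.range (x Λ n)) = ⊤ := PresentedGroup.closure_range_of _

theorem le_of_gen {K : Subgroup (Gp Λ n)} (h : ∀ v, x Λ n v ∈ K) (g : Gp Λ n) : g ∈ K := by
  have h1 : Subgroup.closure (Set.range (x Λ n)) ≤ K := by
    rw [Subgroup.closure_le]
    rintro _ ⟨v, rfl⟩
    exact h v
  rw [gen] at h1
  exact h1 trivial

end base

/-! ### induced subgraphs -/

section ind

variable {V : Type} (Λ : SimpleGraph V) (n : V → ℕ) (p : V → Prop)

/-- the graph product of an induced subgraph -/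
abbrev Gi : Type := Gp (Λ.comap (Subtype.val : {v // p v} → V)) (fun v => n v.1)

/-- the generators -/
abbrev xi (v : {v // p v}) : Gi Λ n p := x (Λ.comap (Subtype.val : {v // p v} → V)) (fun v => n v.1) v

/-- the inclusion -/
def sc : Gi Λ n p →* Gp Λ n :=
  lift (fun v => x Λ n v.1) (fun v => x_pow v.1) (fun _ _ h => x_comm h)

theorem sc_x (v : {v // p v}) : sc Λ n p (xi Λ n p v) = x Λ n v.1 := lift_x _ _ _ _

/-- the retraction -/
def rt : Gp Λ n →* Gi Λ n p :=
  lift (fun v => if h : p v then xi Λ n p ⟨v, h⟩ else 1)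
    (fun v => by
      split_ifs with h
      · exact x_pow (Λ := Λ.comap (Subtype.val : {v // p v} → V)) (n := fun v => n v.1) ⟨v, h⟩
      · exact one_pow _)
    (fun v w hvw => by
      split_ifs with h h'
      · exact x_comm (Λ := Λ.comap (Subtype.val : {v // p v} → V)) (n := fun v => n v.1) hvw
      · rw [mul_one, one_mul]
      · rw [mul_one, one_mul]
      · rfl)

theorem rt_x {v : V} (h : p v) : rt Λ n p (x Λ n v) = xi Λ n p ⟨v, h⟩ := by
  unfold rt
  rw [lift_x, dif_pos h]

theorem rt_x' {v : V} (h : ¬ p v) : rt Λ n p (x Λ n v) = 1 := by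
  unfold rt
  rw [lift_x, dif_neg h]

theorem rt_sc (y : Gi Λ n p) : rt Λ n p (sc Λ n p y) = y := by
  have h : (rt Λ n p).comp (sc Λ n p) = MonoidHom.id _ := by
    apply hom_ext
    intro v
    rw [MonoidHom.comp_apply]
    erw [sc_x]
    rw [rt_x Λ n p v.2]
    rfl
  exact DFunLike.congr_fun h y

theorem sc_injective : Function.Injective (sc Λ n p) := by
  intro a b h
  rw [← rt_sc Λ n p a, h, rt_sc]

end ind

/-! ### the kernel -/

section ker

variable {V : Type} (Λ : SimpleGraph V) (n : V → ℕ) (S : Set V)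

/-- the graph product of the other vertices -/
abbrev Pt : Type := Gi Λ n (fun v => v ∉ S)

/-- the graph product of the vertices in `S` -/
abbrev Bt : Type := Gi Λ n (fun v => v ∈ S)

/-- the subgroup generated by the link -/
def Ls : Subgroup (Pt Λ n S) :=
  Subgroup.closure {y | ∃ w : {v // v ∉ S}, (∃ s ∈ S, Λ.Adj s w.1) ∧ y = xi Λ n (fun v => v ∉ S) w}

/-- the index set -/
abbrev It : Type := Pt Λ n S ⧸ Ls Λ n S

/-- the free product of copies of the group of `S` -/
abbrev Wt : Type := Monoid.CoprodI (fun _ : It Λ n S => Bt Λ n S)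

/-- permutation of the factors -/
def pa (p : Pt Λ n S) : Wt Λ n S →* Wt Λ n S :=
  Monoid.CoprodI.lift fun i => Monoid.CoprodI.of (M := fun _ : It Λ n S => Bt Λ n S) (i := p • i)

theorem pa_of (p : Pt Λ n S) (i : It Λ n S) (b : Bt Λ n S) :
    pa Λ n S p (Monoid.CoprodI.of (M := fun _ : It Λ n S => Bt Λ n S) (i := i) b) =
      Monoid.CoprodI.of (M := fun _ : It Λ n S => Bt Λ n S) (i := p • i) b := by
  unfold pa
  rw [Monoid.CoprodI.lift_of]

theorem pa_mul (p q : Pt Λ n S) : pa Λ n S (p * q) = (pa Λ n S p).comp (pa Λ n S q) := by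
  apply Monoid.CoprodI.ext_hom
  intro i
  ext b
  rw [MonoidHom.comp_apply, MonoidHom.comp_apply, MonoidHom.comp_apply, pa_of, pa_of, pa_of,
    mul_smul]

theorem pa_one : pa Λ n S 1 = MonoidHom.id _ := by
  apply Monoid.CoprodI.ext_hom
  intro i
  ext b
  rw [MonoidHom.comp_apply, pa_of, one_smul]
  rfl

/-- the action on the free product -/
def pact : Pt Λ n S →* MulAut (Wt Λ n S) where
  toFun p := MonoidHom.toMulEquiv (pa Λ n S p) (pa Λ n S p⁻¹)
    (by rw [← pa_mul, inv_mul_cancel, pa_one]) (by rw [← pa_mul, mul_inv_cancel, pa_one])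
  map_one' := by
    ext w
    change pa Λ n S 1 w = w
    rw [pa_one]
    rfl
  map_mul' p q := by
    ext w
    change pa Λ n S (p * q) w = pa Λ n S p (pa Λ n S q w)
    rw [pa_mul]
    rfl

theorem pact_of (p : Pt Λ n S) (i : It Λ n S) (b : Bt Λ n S) :
    pact Λ n S p (Monoid.CoprodI.of (M := fun _ : It Λ n S => Bt Λ n S) (i := i) b) =
      Monoid.CoprodI.of (M := fun _ : It Λ n S => Bt Λ n S) (i := p • i) b :=
  pa_of Λ n S p i b

/-- the factor of the base point -/
abbrev o1 (i : It Λ n S) : Bt Λ n S →* Wt Λ n S :=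
  Monoid.CoprodI.of (M := fun _ : It Λ n S => Bt Λ n S) (i := i)

/-- the base point -/
abbrev i0 : It Λ n S := QuotientGroup.mk 1

theorem smul_i0 (p : Pt Λ n S) : p • i0 Λ n S = QuotientGroup.mk p := by
  change ((p * 1 : Pt Λ n S) : It Λ n S) = _
  rw [mul_one]

theorem Ls_fix {p : Pt Λ n S} (h : p ∈ Ls Λ n S) : p • i0 Λ n S = i0 Λ n S := by
  rw [smul_i0, QuotientGroup.eq, mul_one]
  exact (Ls Λ n S).inv_mem h

variable {Λ n S}

/-- `S` is a module: its vertices have the same neighbours outside `S` -/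
def IsMod (Λ : SimpleGraph V) (S : Set V) : Prop :=
  ∀ s ∈ S, ∀ t ∈ S, ∀ w, w ∉ S → (Λ.Adj s w → Λ.Adj t w)

/-- the homomorphism to the semidirect product -/
def Th (_ : IsMod Λ S) : Gp Λ n →* Wt Λ n S ⋊[pact Λ n S] Pt Λ n S :=
  lift (fun v => if h : v ∈ S then
      SemidirectProduct.inl (o1 Λ n S (i0 Λ n S) (xi Λ n (fun v => v ∈ S) ⟨v, h⟩))
    else SemidirectProduct.inr (xi Λ n (fun v => v ∉ S) ⟨v, h⟩))
    (fun v => by
      split_ifs with h
      · rw [← map_pow, ← map_pow]
        have : xi Λ n (fun v => v ∈ S) ⟨v, h⟩ ^ n v = 1 :=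
          x_pow (Λ := Λ.comap (Subtype.val : {v // v ∈ S} → V)) (n := fun v => n v.1) ⟨v, h⟩
        rw [this, map_one, map_one]
      · rw [← map_pow]
        have : xi Λ n (fun v => v ∉ S) ⟨v, h⟩ ^ n v = 1 :=
          x_pow (Λ := Λ.comap (Subtype.val : {v // v ∉ S} → V)) (n := fun v => n v.1) ⟨v, h⟩
        rw [this, map_one])
    (fun v w hvw => by
      have key : ∀ (s w : V) (hs : s ∈ S) (hw : w ∉ S), Λ.Adj s w →
          (SemidirectProduct.inr (xi Λ n (fun v => v ∉ S) ⟨w, hw⟩) :
            Wt Λ n S ⋊[pact Λ n S] Pt Λ n S) *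
            SemidirectProduct.inl (o1 Λ n S (i0 Λ n S) (xi Λ n (fun v => v ∈ S) ⟨s, hs⟩)) =
          SemidirectProduct.inl (o1 Λ n S (i0 Λ n S) (xi Λ n (fun v => v ∈ S) ⟨s, hs⟩)) *
            SemidirectProduct.inr (xi Λ n (fun v => v ∉ S) ⟨w, hw⟩) := by
        intro s w hs hw hsw
        rw [← mul_inv_eq_iff_eq_mul, ← map_inv, ← SemidirectProduct.inl_aut, pact_of, Ls_fix]
        exact Subgroup.subset_closure ⟨⟨w, hw⟩, ⟨s, hs, hsw⟩, rfl⟩
      split_ifs with h h' h'
      · rw [← map_mul, ← map_mul, ← map_mul, ← map_mul]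
        congr 2
        exact x_comm (Λ := Λ.comap (Subtype.val : {v // v ∈ S} → V)) (n := fun v => n v.1) hvw
      · exact (key v w h h' hvw).symm
      · exact key w v h' h hvw.symm
      · rw [← map_mul, ← map_mul]
        congr 1
        exact x_comm (Λ := Λ.comap (Subtype.val : {v // v ∉ S} → V)) (n := fun v => n v.1) hvw)

theorem Th_sc (hS : IsMod Λ S) (p : Pt Λ n S) :
    Th hS (sc Λ n (fun v => v ∉ S) p) = SemidirectProduct.inr p := by
  have h : (Th hS).comp (sc Λ n (fun v => v ∉ S)) = SemidirectProduct.inr := by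
    apply hom_ext
    intro v
    rw [MonoidHom.comp_apply]
    erw [sc_x]
    unfold Th
    rw [lift_x, dif_neg v.2]
  exact DFunLike.congr_fun h p

theorem Th_k (hS : IsMod Λ S) (b : Bt Λ n S) :
    Th hS (sc Λ n (fun v => v ∈ S) b) = SemidirectProduct.inl (o1 Λ n S (i0 Λ n S) b) := by
  have h : (Th hS).comp (sc Λ n (fun v => v ∈ S)) =
      SemidirectProduct.inl.comp (o1 Λ n S (i0 Λ n S)) := by
    apply hom_ext
    intro v
    rw [MonoidHom.comp_apply]
    erw [sc_x]
    unfold Th
    rw [lift_x, dif_pos v.2]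
    rfl
  exact DFunLike.congr_fun h b

variable (Λ n S) in
/-- the embedding of the factor with index `i` -/
def ke (i : It Λ n S) : Bt Λ n S →* Gp Λ n :=
  (MulAut.conj (sc Λ n (fun v => v ∉ S) (Quotient.out i))).toMonoidHom.comp
    (sc Λ n (fun v => v ∈ S))

theorem ke_apply (i : It Λ n S) (b : Bt Λ n S) : ke Λ n S i b =
    sc Λ n (fun v => v ∉ S) (Quotient.out i) * sc Λ n (fun v => v ∈ S) b *
      (sc Λ n (fun v => v ∉ S) (Quotient.out i))⁻¹ := rfl

theorem Th_ke (hS : IsMod Λ S) (i : It Λ n S) (b : Bt Λ n S) :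
    Th hS (ke Λ n S i b) = SemidirectProduct.inl (o1 Λ n S i b) := by
  rw [ke_apply, map_mul, map_mul, map_inv, Th_sc, Th_k, ← map_inv, ← SemidirectProduct.inl_aut,
    pact_of, smul_i0]
  congr 2
  rw [QuotientGroup.out_eq']

/-- the subgroup of the link commutes with the one of `S` -/
theorem comm_Ls (hS : IsMod Λ S) {l : Pt Λ n S} (hl : l ∈ Ls Λ n S) (b : Bt Λ n S) :
    sc Λ n (fun v => v ∉ S) l * sc Λ n (fun v => v ∈ S) b =
      sc Λ n (fun v => v ∈ S) b * sc Λ n (fun v => v ∉ S) l := by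
  have h : Ls Λ n S ≤ (Subgroup.centralizer
      ((sc Λ n (fun v => v ∈ S)).range : Set (Gp Λ n))).comap (sc Λ n (fun v => v ∉ S)) := by
    unfold Ls
    rw [Subgroup.closure_le]
    rintro _ ⟨w, ⟨s, hs, hsw⟩, rfl⟩
    rw [SetLike.mem_coe, Subgroup.mem_comap, Subgroup.mem_centralizer_iff]
    rintro _ ⟨b, rfl⟩
    have h1 : ∀ b : Bt Λ n S, b ∈ (Subgroup.centralizer
        ({x Λ n w.1} : Set (Gp Λ n))).comap (sc Λ n (fun v => v ∈ S)) := by
      apply le_of_gen
      intro t
      rw [Subgroup.mem_comap, Subgroup.mem_centralizer_iff]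
      intro y hy
      rw [Set.mem_singleton_iff] at hy
      subst hy
      erw [sc_x]
      exact x_comm (hS s hs t.1 t.2 w.1 w.2 hsw).symm
    have h2 := h1 b
    rw [Subgroup.mem_comap, Subgroup.mem_centralizer_iff] at h2
    erw [sc_x]
    exact (h2 _ rfl).symm
  have h3 := h hl
  rw [Subgroup.mem_comap, Subgroup.mem_centralizer_iff] at h3
  exact (h3 _ ⟨b, rfl⟩).symm

theorem sc_ke (hS : IsMod Λ S) (p : Pt Λ n S) (i : It Λ n S) (b : Bt Λ n S) :
    sc Λ n (fun v => v ∉ S) p * ke Λ n S i b * (sc Λ n (fun v => v ∉ S) p)⁻¹ =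
      ke Λ n S (p • i) b := by
  have h1 : (Quotient.out (p • i))⁻¹ * (p * Quotient.out i) ∈ Ls Λ n S := by
    rw [← QuotientGroup.eq, QuotientGroup.out_eq']
    conv_lhs => rw [← QuotientGroup.out_eq' i]
    rfl
  have h2 := comm_Ls hS h1 b
  set l := (Quotient.out (p • i))⁻¹ * (p * Quotient.out i)
  have h3 : p * Quotient.out i = Quotient.out (p • i) * l := by
    rw [mul_inv_cancel_left]
  rw [ke_apply, ke_apply]
  have h4 : sc Λ n (fun v => v ∉ S) p * (sc Λ n (fun v => v ∉ S) (Quotient.out i) *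
      sc Λ n (fun v => v ∈ S) b * (sc Λ n (fun v => v ∉ S) (Quotient.out i))⁻¹) *
      (sc Λ n (fun v => v ∉ S) p)⁻¹ =
      sc Λ n (fun v => v ∉ S) (p * Quotient.out i) * sc Λ n (fun v => v ∈ S) b *
        (sc Λ n (fun v => v ∉ S) (p * Quotient.out i))⁻¹ := by
    rw [map_mul]
    group
  rw [h4, h3, map_mul, mul_assoc _ (sc Λ n (fun v => v ∉ S) l), h2]
  group

/-- the factors generate the kernel of the retraction -/
theorem sup_ke (hS : IsMod Λ S) : ⨆ i, (ke Λ n S i).range = (rt Λ n (fun v => v ∉ S)).ker := by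
  set K : Subgroup (Gp Λ n) := ⨆ i, (ke Λ n S i).range with hK
  have hle : K ≤ (rt Λ n (fun v => v ∉ S)).ker := by
    rw [hK, iSup_le_iff]
    rintro i _ ⟨b, rfl⟩
    have h1 : ∀ b : Bt Λ n S, b ∈ ((rt Λ n (fun v => v ∉ S)).ker).comap
        (sc Λ n (fun v => v ∈ S)) := by
      apply le_of_gen
      intro t
      rw [Subgroup.mem_comap]
      erw [sc_x]
      exact rt_x' Λ n _ (fun h => h t.2)
    rw [ke_apply]
    exact (inferInstance : ((rt Λ n (fun v => v ∉ S)).ker).Normal).conj_mem _ (h1 b) _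
  have hmem : ∀ (i : It Λ n S) (b : Bt Λ n S), ke Λ n S i b ∈ K := fun i b =>
    (le_iSup (fun i => (ke Λ n S i).range) i) ⟨b, rfl⟩
  have hp : ∀ (p : Pt Λ n S) (y : Gp Λ n), y ∈ K →
      sc Λ n (fun v => v ∉ S) p * y * (sc Λ n (fun v => v ∉ S) p)⁻¹ ∈ K := by
    intro p y hy
    have h1 : K ≤ K.comap (MulAut.conj (sc Λ n (fun v => v ∉ S) p)).toMonoidHom := by
      conv_lhs => rw [hK]
      rw [iSup_le_iff]
      rintro i _ ⟨b, rfl⟩
      rw [Subgroup.mem_comap]
      change sc Λ n (fun v => v ∉ S) p * ke Λ n S i b * (sc Λ n (fun v => v ∉ S) p)⁻¹ ∈ K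
      rw [sc_ke hS]
      exact hmem _ _
    exact h1 hy
  -- every element is the product of an element of `K` and one of `P`
  have hall : ∀ y : Gp Λ n, y * (sc Λ n (fun v => v ∉ S) (rt Λ n (fun v => v ∉ S) y))⁻¹ ∈ K := by
    let T : Subgroup (Gp Λ n) :=
      { carrier := {y | y * (sc Λ n (fun v => v ∉ S) (rt Λ n (fun v => v ∉ S) y))⁻¹ ∈ K}
        one_mem' := by
          change (1 : Gp Λ n) * _ ∈ K
          rw [map_one, map_one, inv_one, mul_one]
          exact K.one_mem
        mul_mem' := by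
          intro a b ha hb
          change a * b * _ ∈ K
          have h1 := hp (rt Λ n (fun v => v ∉ S) a) _ hb
          have h2 := K.mul_mem ha h1
          rw [map_mul, map_mul]
          convert h2 using 1
          group
        inv_mem' := by
          intro a ha
          change a⁻¹ * _ ∈ K
          have h1 := hp (rt Λ n (fun v => v ∉ S) a)⁻¹ _ (K.inv_mem ha)
          rw [map_inv, map_inv]
          convert h1 using 1
          rw [map_inv]
          group }
    intro y
    have h1 : y ∈ T := by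
      apply le_of_gen
      intro v
      change x Λ n v * _ ∈ K
      by_cases h : v ∈ S
      · rw [rt_x' Λ n _ (fun h' => h' h), map_one, inv_one, mul_one]
        have h2 := hp (Quotient.out (i0 Λ n S))⁻¹ _ (hmem (i0 Λ n S) (xi Λ n (fun v => v ∈ S) ⟨v, h⟩))
        rw [ke_apply] at h2
        convert h2 using 1
        have h3 : sc Λ n (fun v => v ∈ S) (xi Λ n (fun v => v ∈ S) ⟨v, h⟩) = x Λ n v :=
          sc_x Λ n _ _
        rw [h3, map_inv]
        group
      · have h3 : sc Λ n (fun v => v ∉ S) (xi Λ n (fun v => v ∉ S) ⟨v, h⟩) = x Λ n v :=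
          sc_x Λ n _ _
        rw [rt_x Λ n (fun v => v ∉ S) h, h3, mul_inv_cancel]
        exact K.one_mem
    exact h1
  apply le_antisymm hle
  intro y hy
  have h1 := hall y
  rw [(MonoidHom.mem_ker).mp hy, map_one, inv_one, mul_one] at h1
  exact h1

/-! ### the free product -/

open Pool.Agent.R684.FP (IsFreeProd)

theorem inl_o1_inj (hS : IsMod Λ S) (i : It Λ n S) : Function.Injective (ke Λ n S i) := by
  intro a b h
  have h1 := congrArg (Th hS) h
  rw [Th_ke hS, Th_ke hS] at h1
  exact Monoid.CoprodI.of_injective i (SemidirectProduct.inl_injective h1)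

/-- the kernel is the free product of the factors, in every group which contains it -/
theorem isFreeProd (hS : IsMod Λ S) {G : Type} [Group G] (j : Gp Λ n →* G)
    (hj : Function.Injective j) : IsFreeProd (((rt Λ n (fun v => v ∉ S)).ker).map j)
      (fun i : It Λ n S => ((ke Λ n S i).range).map j) := by
  constructor
  · rw [← Subgroup.map_iSup, sup_ke hS]
  · -- the isomorphisms of the factors
    have e : ∀ i : It Λ n S, ∃ e : ((ke Λ n S i).range).map j →* Bt Λ n S,
        ∀ y, j (ke Λ n S i (e y)) = (y : G) := by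
      intro i
      have h0 : Function.Injective (j.comp (ke Λ n S i)) := by
        rw [MonoidHom.coe_comp]
        exact hj.comp (inl_o1_inj hS i)
      have h1 : ((ke Λ n S i).range).map j = (j.comp (ke Λ n S i)).range := by
        rw [MonoidHom.range_comp]
      refine ⟨(MonoidHom.ofInjective h0).symm.toMonoidHom.comp
        (MulEquiv.subgroupCongr h1).toMonoidHom, ?_⟩
      intro y
      have h2 := (MonoidHom.ofInjective h0).apply_symm_apply ((MulEquiv.subgroupCongr h1) y)
      exact congrArg Subtype.val h2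
    choose e he using e
    -- the comparison with the free product in the semidirect product
    let E : Monoid.CoprodI (fun i : It Λ n S => ((ke Λ n S i).range).map j) →* Wt Λ n S :=
      Monoid.CoprodI.lift fun i => (o1 Λ n S i).comp (e i)
    let F' : Monoid.CoprodI (fun i : It Λ n S => ((ke Λ n S i).range).map j) →* Gp Λ n :=
      Monoid.CoprodI.lift fun i => (ke Λ n S i).comp (e i)
    have h1 : Monoid.CoprodI.lift (fun i : It Λ n S => (((ke Λ n S i).range).map j).subtype) =
        j.comp F' := by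
      apply Monoid.CoprodI.ext_hom
      intro i
      ext y
      rw [MonoidHom.comp_apply, MonoidHom.comp_apply, MonoidHom.comp_apply,
        Monoid.CoprodI.lift_of, Monoid.CoprodI.lift_of, MonoidHom.comp_apply, he]
      rfl
    have h2 : (Th hS).comp F' = SemidirectProduct.inl.comp E := by
      apply Monoid.CoprodI.ext_hom
      intro i
      ext y
      · rw [MonoidHom.comp_apply, MonoidHom.comp_apply, MonoidHom.comp_apply,
          MonoidHom.comp_apply, Monoid.CoprodI.lift_of, Monoid.CoprodI.lift_of,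
          MonoidHom.comp_apply, Th_ke hS]
        rfl
      · rw [MonoidHom.comp_apply, MonoidHom.comp_apply, MonoidHom.comp_apply,
          MonoidHom.comp_apply, Monoid.CoprodI.lift_of, Monoid.CoprodI.lift_of,
          MonoidHom.comp_apply, Th_ke hS]
        rfl
    -- `E` is injective
    have d : ∀ i : It Λ n S, ∃ d : Bt Λ n S →* ((ke Λ n S i).range).map j,
        ∀ b, (d b : G) = j (ke Λ n S i b) := fun i =>
      ⟨(j.comp (ke Λ n S i)).codRestrict (((ke Λ n S i).range).map j)
          fun b => ⟨ke Λ n S i b, ⟨b, rfl⟩, rfl⟩, fun b => rfl⟩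
    choose d hd using d
    let E' : Wt Λ n S →* Monoid.CoprodI (fun i : It Λ n S => ((ke Λ n S i).range).map j) :=
      Monoid.CoprodI.lift fun i => Monoid.CoprodI.of.comp (d i)
    have h3 : E'.comp E = MonoidHom.id _ := by
      apply Monoid.CoprodI.ext_hom
      intro i
      ext y
      rw [MonoidHom.comp_apply, MonoidHom.comp_apply, Monoid.CoprodI.lift_of,
        MonoidHom.comp_apply, Monoid.CoprodI.lift_of, MonoidHom.comp_apply,
        MonoidHom.comp_apply, MonoidHom.id_apply]
      congr 1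
      apply Subtype.ext
      rw [hd, he]
    have h4 : Function.Injective E := by
      intro a b hab
      have := congrArg E' hab
      rwa [← MonoidHom.comp_apply, ← MonoidHom.comp_apply, h3] at this
    have h5 : Function.Injective F' := by
      have h6 : Function.Injective ((Th hS).comp F') := by
        rw [h2, MonoidHom.coe_comp]
        exact SemidirectProduct.inl_injective.comp h4
      rw [MonoidHom.coe_comp] at h6
      exact h6.of_comp
    rw [h1, MonoidHom.coe_comp]
    exact hj.comp h5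

end ker

end Pool.Agent.W2helper32.GP
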