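import Pool.Agent.W2helper32.GP.LS

/-!
# Extensions with kernels graph products of cyclic groups
-/

set_option autoImplicit false

open scoped Classical

noncomputable section

namespace Pool.Agent.W2helper32.GP

open Pool.Agent.Y110.FJ (ClosedE)
open Pool.Agent.R684.FP (FbC IsFreeProd main_all Pm cyc_real)
open Pool.Agent.R941.FJ (C_equiv C_le C_cyc)

variable {C : ∀ (G : Type) [Group G], Prop}

/-- the class contains the groups (finitely generated abelian) ⋊ ℤ -/
def AbC (C : ∀ (G : Type) [Group G], Prop) : Prop :=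
  ∀ (A : Type) [Group A], (∀ a b : A, a * b = b * a) → Group.FG A → ∀ α : MulAut A,
    C (A ⋊[zpowersHom (MulAut A) α] Multiplicative ℤ)

/-- (finitely generated abelian) ⟨g⟩ -/
theorem ab_cyc (hC : ClosedE C) (hA : AbC C) {G : Type} [Group G] (K : Subgroup G)
    (hcomm : ∀ a b : K, a * b = b * a) (hfg : Group.FG K) (g : G)
    (hg : ∀ x, x ∈ K ↔ g * x * g⁻¹ ∈ K) : C ↥(K ⊔ Subgroup.zpowers g) := by
  let c : MulAut K :=
    { toFun := fun x => ⟨g * x * g⁻¹, (hg x).mp x.2⟩
      invFun := fun x => ⟨g⁻¹ * x * g, by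
        rw [hg]
        have : g * (g⁻¹ * x * g) * g⁻¹ = (x : G) := by group
        rw [this]
        exact x.2⟩
      left_inv := fun x => by
        apply Subtype.ext
        change g⁻¹ * (g * x * g⁻¹) * g = (x : G)
        group
      right_inv := fun x => by
        apply Subtype.ext
        change g * (g⁻¹ * x * g) * g⁻¹ = (x : G)
        group
      map_mul' := fun x y => by
        apply Subtype.ext
        change g * (x * y) * g⁻¹ = (g * x * g⁻¹) * (g * y * g⁻¹)
        group }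
  refine cyc_real hC K g hg (SemidirectProduct.inl (φ := zpowersHom (MulAut K) c))
    SemidirectProduct.inl_injective (SemidirectProduct.inr (Multiplicative.ofAdd 1)) ?_
    (hA K hcomm hfg c)
  intro x y hxy
  rw [← map_inv, ← SemidirectProduct.inl_aut]
  congr 1
  rw [zpowersHom_apply, toAdd_ofAdd, zpow_one]
  exact Subtype.ext hxy

section step

variable {V : Type} {Λ : SimpleGraph V} {n : V → ℕ}

/-- the group of a clique is commutative -/
theorem clique_comm {S : Set V} (hcl : ∀ s ∈ S, ∀ t ∈ S, s ≠ t → Λ.Adj s t) (a b : Bt Λ n S) :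
    a * b = b * a := by
  have h1 : ∀ s : {v // v ∈ S}, xi Λ n (fun v => v ∈ S) s ∈ Subgroup.center (Bt Λ n S) := by
    intro s
    rw [Subgroup.mem_center_iff]
    intro g
    have h2 : g ∈ Subgroup.centralizer ({xi Λ n (fun v => v ∈ S) s} : Set (Bt Λ n S)) := by
      apply le_of_gen
      intro t
      rw [Subgroup.mem_centralizer_iff]
      intro y hy
      rw [Set.mem_singleton_iff] at hy
      subst hy
      by_cases hst : s = t
      · rw [hst]
      · exact x_comm (Λ := Λ.comap (Subtype.val : {v // v ∈ S} → V)) (n := fun v => n v.1)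
          (hcl s.1 s.2 t.1 t.2 fun h => hst (Subtype.ext h))
    rw [Subgroup.mem_centralizer_iff] at h2
    exact (h2 _ rfl).symm
  have h2 : a ∈ Subgroup.center (Bt Λ n S) := le_of_gen h1 a
  exact (Subgroup.mem_center_iff.mp h2 b).symm

/-- graph products over finite graphs are finitely generated -/
theorem fg_Gp [Finite V] : Group.FG (Gp Λ n) := by
  rw [Group.fg_iff]
  exact ⟨Set.range (x Λ n), gen, Set.finite_range _⟩

/-- the group of an independent set of vertices of infinite order is free -/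
theorem free_indep (h0 : ∀ v, n v = 0) (h1 : ∀ v w, ¬ Λ.Adj v w) : IsFreeGroup (Gp Λ n) := by
  let f : FreeGroup V →* Gp Λ n := FreeGroup.lift (x Λ n)
  let g : Gp Λ n →* FreeGroup V := lift FreeGroup.of (fun v => by rw [h0, pow_zero])
    (fun v w h => absurd h (h1 v w))
  have hgf : g.comp f = MonoidHom.id _ := by
    apply FreeGroup.ext_hom
    intro v
    change g (f (FreeGroup.of v)) = FreeGroup.of v
    rw [FreeGroup.lift_apply_of]
    exact lift_x _ _ _ _
  have hfg : f.comp g = MonoidHom.id _ := by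
    apply hom_ext
    intro v
    change f (g (x Λ n v)) = x Λ n v
    have : g (x Λ n v) = FreeGroup.of v := lift_x _ _ _ _
    rw [this]
    exact FreeGroup.lift_apply_of
  exact IsFreeGroup.ofMulEquiv (MonoidHom.toMulEquiv f g hgf hfg)

/-- the factor of the base point is the group of `S` -/
theorem ke_i0 {S : Set V} (hS : IsMod Λ S) (b : Bt Λ n S) :
    ke Λ n S (i0 Λ n S) b = sc Λ n (fun v => v ∈ S) b := by
  have h1 : Quotient.out (i0 Λ n S) ∈ Ls Λ n S := by
    have h2 : ((Quotient.out (i0 Λ n S) : Pt Λ n S) : It Λ n S) = ((1 : Pt Λ n S) : It Λ n S) :=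
      QuotientGroup.out_eq' _
    rw [QuotientGroup.eq, mul_one] at h2
    exact (Ls Λ n S).inv_mem_iff.mp h2
  rw [ke_apply, comm_Ls hS h1, mul_inv_cancel_right]

theorem mem_ke {S : Set V} (hS : IsMod Λ S) (p : Pt Λ n S) (y : Gp Λ n) :
    y ∈ (ke Λ n S (QuotientGroup.mk p)).range ↔
      (sS Λ n S p)⁻¹ * y * sS Λ n S p ∈ (sc Λ n (fun v => v ∈ S)).range := by
  have h1 : ∀ b : Bt Λ n S, sS Λ n S p * sc Λ n (fun v => v ∈ S) b * (sS Λ n S p)⁻¹ =
      ke Λ n S (QuotientGroup.mk p) b := by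
    intro b
    rw [← ke_i0 hS, sc_ke hS, smul_i0]
  constructor
  · rintro ⟨b, rfl⟩
    refine ⟨b, ?_⟩
    rw [← h1]
    group
  · rintro ⟨b, hb⟩
    refine ⟨b, ?_⟩
    rw [← h1, hb]
    group

/-- **one step**: extensions whose kernel is the kernel of the retraction which kills a maximal
class -/
theorem step [Finite V] (hC : ClosedE C) (hF : FbC C) (hA : AbC C) {S : Set V} (hS : IsMax Λ n S)
    {G : Type} [Group G] (j : Gp Λ n →* G) (hj : Function.Injective j)
    (hLS : ∀ g : G, ∃ α ∈ LS0 Λ n, ∀ y, g * j y * g⁻¹ = j (α y))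
    [hN : (((rS Λ n S).ker).map j).Normal] (hQ : C (G ⧸ ((rS Λ n S).ker).map j)) : C G := by
  have hmod := hS.isMod
  have hfp := isFreeProd hmod j hj
  have he : ∀ i : It Λ n S, ∃ e : Bt Λ n S ≃* ((ke Λ n S i).range).map j, True := by
    intro i
    have h0 : Function.Injective (j.comp (ke Λ n S i)) := by
      rw [MonoidHom.coe_comp]
      exact hj.comp (inl_o1_inj hmod i)
    have h1 : (j.comp (ke Λ n S i)).range = ((ke Λ n S i).range).map j := by
      rw [MonoidHom.range_comp]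
    exact ⟨(MonoidHom.ofInjective h0).trans (MulEquiv.subgroupCongr h1), trivial⟩
  rcases hS.cases with hcl | hind
  · -- a clique
    refine main_all hC hF hQ (fun i : It Λ n S => ((ke Λ n S i).range).map j) Set.univ hfp
      (fun i hi => absurd (Set.mem_univ i) hi) ?_ ?_
    · intro i _ g
      obtain ⟨α, hα, hg⟩ := hLS g
      obtain ⟨m, hm⟩ := conj_class hS hcl hα
      obtain ⟨p, rfl⟩ := QuotientGroup.mk_surjective i
      -- the conjugating element
      let q : Gp Λ n := α (sS Λ n S p) * m⁻¹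
      let p' : Pt Λ n S := rS Λ n S q
      refine ⟨QuotientGroup.mk p', Set.mem_univ _, j (sS Λ n S p' * q⁻¹), ?_, ?_⟩
      · refine ⟨_, ?_, rfl⟩
        rw [SetLike.mem_coe, MonoidHom.mem_ker, map_mul, rS_sS, map_inv, mul_inv_cancel]
      · intro z
        constructor
        · rintro ⟨y, hy, rfl⟩
          rw [SetLike.mem_coe, mem_ke hmod, hm] at hy
          rw [hg, ← map_inv, ← map_mul, ← map_mul]
          refine ⟨_, ?_, rfl⟩
          rw [SetLike.mem_coe, mem_ke hmod]
          convert hy using 1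
          simp only [map_mul, map_inv, q]
          group
        · rintro ⟨y, hy, hy'⟩
          have h1 : g * z * g⁻¹ = j ((sS Λ n S p' * q⁻¹)⁻¹ * y * (sS Λ n S p' * q⁻¹)) := by
            rw [map_mul, map_mul, hy', map_inv]
            group
          let w : Gp Λ n := (sS Λ n S p' * q⁻¹)⁻¹ * y * (sS Λ n S p' * q⁻¹)
          have h2 : α (α⁻¹ w) = w := α.apply_symm_apply w
          have h3 : z = j (α⁻¹ w) := by
            have h4 := hg (α⁻¹ w)
            rw [h2, ← h1] at h4
            have h5 : z = g⁻¹ * (g * z * g⁻¹) * g := by group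
            rw [h5, ← h4]
            group
          refine ⟨α⁻¹ w, ?_, h3.symm⟩
          rw [SetLike.mem_coe, mem_ke hmod, hm]
          rw [SetLike.mem_coe, mem_ke hmod] at hy
          convert hy using 1
          rw [map_mul, map_mul, map_inv, h2]
          simp only [w, q]
          group
    · intro i _ g hg
      obtain ⟨e, -⟩ := he i
      have hfgB : Group.FG (Bt Λ n S) := fg_Gp
      refine ab_cyc hC hA _ ?_ ?_ g hg
      · intro a b
        apply e.symm.injective
        rw [map_mul, map_mul, clique_comm hcl]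
      · exact Group.fg_of_surjective (f := e.toMonoidHom) e.surjective
  · -- an independent set
    refine main_all hC hF hQ (fun i : It Λ n S => ((ke Λ n S i).range).map j) ∅ hfp
      (fun i _ => ?_) (fun i hi => absurd hi (Set.notMem_empty i))
      (fun i hi => absurd hi (Set.notMem_empty i))
    obtain ⟨e, -⟩ := he i
    have : IsFreeGroup (Bt Λ n S) := free_indep (fun v => (hind v.1 v.2).1)
      (fun v w h => (hind v.1 v.2).2 w.1 w.2 h)
    exact IsFreeGroup.ofMulEquiv e

end step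

/-- the theorem for the group `LS0` -/
theorem main0 (hC : ClosedE C) (hF : FbC C) (hA : AbC C) : ∀ (k : ℕ) (V : Type) [Finite V],
    Nat.card V = k → ∀ (Λ : SimpleGraph V) (n : V → ℕ) (G : Type) [Group G] (j : Gp Λ n →* G),
    Function.Injective j → ∀ [j.range.Normal],
    (∀ g : G, ∃ α ∈ LS0 Λ n, ∀ y, g * j y * g⁻¹ = j (α y)) → C (G ⧸ j.range) → C G := by
  intro k
  induction k using Nat.strong_induction_on with
  | _ k ih =>
    intro V _ hk Λ n G _ j hj hN hLS hQ
    rcases isEmpty_or_nonempty V with hV | hV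
    · -- the trivial group
      have h1 : ∀ y : Gp Λ n, y = 1 := by
        intro y
        have : y ∈ (⊥ : Subgroup (Gp Λ n)) := le_of_gen (fun v => hV.elim v) y
        exact Subgroup.mem_bot.mp this
      refine hC.base.of_injective _ _ (QuotientGroup.mk' j.range) ?_ hQ
      rw [injective_iff_map_eq_one]
      intro a ha
      obtain ⟨y, rfl⟩ := (QuotientGroup.eq_one_iff a).mp ha
      rw [h1 y, map_one]
    · obtain ⟨S, hSne, hS⟩ := exists_max (Λ := Λ) (n := n)
      -- the kernel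
      let M : Subgroup G := ((rS Λ n S).ker).map j
      have hMN : M ≤ j.range := Subgroup.map_le_range j _
      have hM : M.Normal := by
        refine ⟨?_⟩
        rintro _ ⟨y, hy, rfl⟩ g
        obtain ⟨α, hα, hg⟩ := hLS g
        obtain ⟨β, -, hβ⟩ := induce hS.1 hα
        rw [hg]
        refine ⟨_, ?_, rfl⟩
        rw [SetLike.mem_coe, MonoidHom.mem_ker] at hy ⊢
        rw [hβ, hy, map_one]
      let j' : Pt Λ n S →* G ⧸ M := (QuotientGroup.mk' M).comp (j.comp (sS Λ n S))
      have hj'' : ∀ y : Gp Λ n, QuotientGroup.mk' M (j y) = j' (rS Λ n S y) := by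
        intro y
        change QuotientGroup.mk' M (j y) = QuotientGroup.mk' M (j (sS Λ n S (rS Λ n S y)))
        rw [QuotientGroup.mk'_eq_mk']
        refine ⟨j (y⁻¹ * sS Λ n S (rS Λ n S y)), ⟨_, ?_, rfl⟩, ?_⟩
        · rw [SetLike.mem_coe, MonoidHom.mem_ker, map_mul, rS_sS, map_inv, inv_mul_cancel]
        · rw [← map_mul, mul_inv_cancel_left]
      have hj' : Function.Injective j' := by
        rw [injective_iff_map_eq_one]
        intro y hy
        have h1 : j (sS Λ n S y) ∈ M := (QuotientGroup.eq_one_iff _).mp hy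
        obtain ⟨z, hz, hz'⟩ := h1
        rw [← rS_sS y, ← hj hz']
        exact hz
      have hr : j'.range = j.range.map (QuotientGroup.mk' M) := by
        ext z
        constructor
        · rintro ⟨y, rfl⟩
          exact ⟨j (sS Λ n S y), ⟨_, rfl⟩, rfl⟩
        · rintro ⟨_, ⟨y, rfl⟩, rfl⟩
          exact ⟨_, (hj'' y).symm⟩
      have hN' : (j.range.map (QuotientGroup.mk' M)).Normal := hN.map _
        (QuotientGroup.mk'_surjective M)
      have hN'' : j'.range.Normal := by
        rw [hr]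
        exact hN'
      have hQ' : C ((G ⧸ M) ⧸ j'.range) :=
        C_equiv hC.base ((QuotientGroup.quotientMulEquivOfEq hr).trans
          (QuotientGroup.quotientQuotientEquivQuotient M j.range hMN)) hQ
      have hcard : Nat.card {v // v ∉ S} < k := by
        rw [← hk]
        obtain ⟨s, hs⟩ := hSne
        exact Finite.card_subtype_lt (p := fun v => v ∉ S) (x := s) (fun h => h hs)
      have h1 : C (G ⧸ M) := by
        refine ih _ hcard {v // v ∉ S} rfl (Λc Λ S) (nc n S) (G ⧸ M) j' hj' ?_ hQ'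
        intro g'
        obtain ⟨g, rfl⟩ := QuotientGroup.mk'_surjective M g'
        obtain ⟨α, hα, hg⟩ := hLS g
        obtain ⟨β, hβ, hβ'⟩ := induce hS.1 hα
        refine ⟨β, hβ, fun y => ?_⟩
        have h2 : QuotientGroup.mk' M g * j' y * (QuotientGroup.mk' M g)⁻¹ =
            QuotientGroup.mk' M (g * j (sS Λ n S y) * g⁻¹) := by
          rw [map_mul, map_mul, map_inv]
          rfl
        rw [h2, hg, hj'', hβ', rS_sS]
      exact step hC hF hA hS j hj hLS h1

/-! ### graph symmetries -/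

section sym

variable {V : Type} {Λ : SimpleGraph V} {n : V → ℕ}

/-- the conjugates of elementary automorphisms by symmetries are elementary -/
theorem conj_El {φ : MulAut (Gp Λ n)} {σ : Equiv.Perm V}
    (h1 : ∀ u v, Λ.Adj (σ u) (σ v) ↔ Λ.Adj u v) (h2 : ∀ v, n (σ v) = n v)
    (h3 : ∀ v, φ (x Λ n v) = x Λ n (σ v)) {α : MulAut (Gp Λ n)} (hα : El Λ n α) :
    El Λ n (φ * α * φ⁻¹) := by
  have hinv : ∀ v, φ⁻¹ (x Λ n (σ v)) = x Λ n v := fun v => inv_eq (h3 v)
  have happ : ∀ v, (φ * α * φ⁻¹) (x Λ n (σ v)) = φ (α (x Λ n v)) := by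
    intro v
    change φ (α (φ⁻¹ (x Λ n (σ v)))) = _
    rw [hinv]
  rcases hα with ⟨v, m, m', hm, e1, e2⟩ | ⟨v, w, k, hd, e1, e2⟩ | ⟨v, k, Y, hY, hY', e1, e2⟩
  · refine Or.inl ⟨σ v, m, m', by rwa [h2], ?_, ?_⟩
    · rw [happ, e1, map_zpow, h3]
    · intro u hu
      obtain ⟨u, rfl⟩ := σ.surjective u
      rw [happ, e2 u (fun h => hu (by rw [h])), h3]
  · refine Or.inr (Or.inl ⟨σ v, σ w, k, ⟨fun h => hd.1 (σ.injective h), ?_, ?_⟩, ?_, ?_⟩)
    · rw [h2, h1]
      exact hd.2.1
    · intro u hu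
      obtain ⟨u, rfl⟩ := σ.surjective u
      rw [h1] at hu ⊢
      rcases hd.2.2 u hu with h | h
      · exact Or.inl (by rw [h])
      · exact Or.inr h
    · rw [happ, e1, map_mul, map_zpow, h3, h3]
    · intro u hu
      obtain ⟨u, rfl⟩ := σ.surjective u
      rw [happ, e2 u (fun h => hu (by rw [h])), h3]
  · refine Or.inr (Or.inr ⟨σ v, k, {y | σ.symm y ∈ Y}, ?_, ?_, ?_, ?_⟩)
    · intro y hy
      obtain ⟨y, rfl⟩ := σ.surjective y
      rw [Set.mem_ofPred_eq, σ.symm_apply_apply] at hy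
      exact ⟨fun h => (hY y hy).1 (σ.injective h), by rw [h1]; exact (hY y hy).2⟩
    · intro y hy z hz
      obtain ⟨y, rfl⟩ := σ.surjective y
      obtain ⟨z, rfl⟩ := σ.surjective z
      rw [Set.mem_ofPred_eq, σ.symm_apply_apply] at hy
      rw [h1] at hz
      rw [h1, Set.mem_ofPred_eq, σ.symm_apply_apply]
      exact hY' y hy z hz
    · intro y hy
      obtain ⟨y, rfl⟩ := σ.surjective y
      rw [Set.mem_ofPred_eq, σ.symm_apply_apply] at hy
      rw [happ, e1 y hy, map_mul, map_mul, map_inv, map_zpow, h3, h3]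
    · intro y hy
      obtain ⟨y, rfl⟩ := σ.surjective y
      rw [Set.mem_ofPred_eq, σ.symm_apply_apply] at hy
      rw [happ, e2 y hy, h3]

theorem conj_LS0 {φ : MulAut (Gp Λ n)} {σ : Equiv.Perm V}
    (h1 : ∀ u v, Λ.Adj (σ u) (σ v) ↔ Λ.Adj u v) (h2 : ∀ v, n (σ v) = n v)
    (h3 : ∀ v, φ (x Λ n v) = x Λ n (σ v)) {α : MulAut (Gp Λ n)} (hα : α ∈ LS0 Λ n) :
    φ * α * φ⁻¹ ∈ LS0 Λ n := by
  unfold LS0 at hα
  induction hα using Subgroup.closure_induction with
  | mem α hα => exact Subgroup.subset_closure (conj_El h1 h2 h3 hα)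
  | one =>
    rw [mul_one, mul_inv_cancel]
    exact Subgroup.one_mem _
  | mul α α' _ _ h h' =>
    have : φ * (α * α') * φ⁻¹ = (φ * α * φ⁻¹) * (φ * α' * φ⁻¹) := by group
    rw [this]
    exact Subgroup.mul_mem _ h h'
  | inv α _ h =>
    have : φ * α⁻¹ * φ⁻¹ = (φ * α * φ⁻¹)⁻¹ := by group
    rw [this]
    exact Subgroup.inv_mem _ h

/-- `φ` is the symmetry given by `σ` -/
def Sy (φ : MulAut (Gp Λ n)) (σ : Equiv.Perm V) : Prop :=
  (∀ u v, Λ.Adj (σ u) (σ v) ↔ Λ.Adj u v) ∧ (∀ v, n (σ v) = n v) ∧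
    ∀ v, φ (x Λ n v) = x Λ n (σ v)

theorem Sy.inv {φ : MulAut (Gp Λ n)} {σ : Equiv.Perm V} (h : Sy φ σ) : Sy φ⁻¹ σ⁻¹ := by
  refine ⟨fun u v => ?_, fun v => ?_, fun v => ?_⟩
  · rw [← h.1]
    simp
  · rw [← h.2.1]
    simp
  · apply inv_eq
    rw [h.2.2]
    simp

theorem Sy.mul {φ ψ : MulAut (Gp Λ n)} {σ τ : Equiv.Perm V} (h : Sy φ σ) (h' : Sy ψ τ) :
    Sy (φ * ψ) (σ * τ) := by
  refine ⟨fun u v => ?_, fun v => ?_, fun v => ?_⟩
  · change Λ.Adj (σ (τ u)) (σ (τ v)) ↔ _
    rw [h.1, h'.1]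
  · change n (σ (τ v)) = _
    rw [h.2.1, h'.2.1]
  · change φ (ψ (x Λ n v)) = x Λ n (σ (τ v))
    rw [h'.2.2, h.2.2]

/-- every element of `LS` is a product of an element of `LS0` and a symmetry -/
theorem LS_decomp {α : MulAut (Gp Λ n)} (hα : α ∈ LS Λ n) :
    ∃ a ∈ LS0 Λ n, ∃ (φ : MulAut (Gp Λ n)) (σ : Equiv.Perm V), Sy φ σ ∧ α = a * φ := by
  have h1 : Sy (1 : MulAut (Gp Λ n)) 1 := ⟨fun _ _ => Iff.rfl, fun _ => rfl, fun _ => rfl⟩
  unfold LS at hα
  induction hα using Subgroup.closure_induction with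
  | mem α hα =>
    rcases hα with hα | ⟨σ, hσ⟩
    · exact ⟨α, Subgroup.subset_closure hα, 1, 1, h1, (mul_one α).symm⟩
    · exact ⟨1, Subgroup.one_mem _, α, σ, hσ, (one_mul α).symm⟩
  | one => exact ⟨1, Subgroup.one_mem _, 1, 1, h1, (mul_one 1).symm⟩
  | mul α α' _ _ h h' =>
    obtain ⟨a, ha, φ, σ, hφ, rfl⟩ := h
    obtain ⟨a', ha', φ', σ', hφ', rfl⟩ := h'
    refine ⟨a * (φ * a' * φ⁻¹), Subgroup.mul_mem _ ha (conj_LS0 hφ.1 hφ.2.1 hφ.2.2 ha'), φ * φ',
      σ * σ', hφ.mul hφ', ?_⟩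
    group
  | inv α _ h =>
    obtain ⟨a, ha, φ, σ, hφ, rfl⟩ := h
    have hi := hφ.inv
    refine ⟨φ⁻¹ * a⁻¹ * φ⁻¹⁻¹, conj_LS0 hi.1 hi.2.1 hi.2.2 (Subgroup.inv_mem _ ha), φ⁻¹, σ⁻¹,
      hi, ?_⟩
    group

end sym

/-- inner automorphisms are in `LS0` -/
theorem conj_mem {V : Type} {Λ : SimpleGraph V} {n : V → ℕ} (z : Gp Λ n) :
    MulAut.conj z ∈ LS0 Λ n := by
  have h : z ∈ (LS0 Λ n).comap MulAut.conj := by
    apply le_of_gen
    intro v
    apply Subgroup.subset_closure
    refine Or.inr (Or.inr ⟨v, 1, {y | y ≠ v ∧ ¬ Λ.Adj v y}, fun y hy => hy, ?_, ?_, ?_⟩)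
    · intro y hy z hz
      by_cases h : Λ.Adj v z
      · exact Or.inr h
      · refine Or.inl ⟨?_, h⟩
        rintro rfl
        exact hy.2 hz.symm
    · intro y _
      rw [zpow_one]
      rfl
    · intro y hy
      change x Λ n v * x Λ n y * (x Λ n v)⁻¹ = x Λ n y
      rw [mul_inv_eq_iff_eq_mul]
      by_cases h : y = v
      · rw [h]
      · have h1 : Λ.Adj v y := by
          by_contra h2
          exact hy ⟨h, h2⟩
        exact x_comm h1
  exact h

/-- **the theorem for the group `LS`** -/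
theorem main (hC : ClosedE C) (hF : FbC C) (hA : AbC C) (V : Type) [Finite V]
    (Λ : SimpleGraph V) (n : V → ℕ) (G : Type) [Group G] (j : Gp Λ n →* G)
    (hj : Function.Injective j) [hN : j.range.Normal]
    (hLS : ∀ g : G, ∃ α ∈ LS Λ n, ∀ y, g * j y * g⁻¹ = j (α y)) (hQ : C (G ⧸ j.range)) : C G := by
  -- the automorphism given by `g`
  choose c hc hcj using hLS
  have huniq : ∀ (g : G) (α : MulAut (Gp Λ n)), (∀ y, g * j y * g⁻¹ = j (α y)) → α = c g := by
    intro g α h
    ext y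
    apply hj
    rw [← h, hcj]
  have hmul : ∀ g h : G, c (g * h) = c g * c h := by
    intro g h
    refine (huniq _ _ fun y => ?_).symm
    change _ = j (c g (c h y))
    rw [← hcj, ← hcj]
    group
  let c' : G →* MulAut (Gp Λ n) := MonoidHom.mk' c hmul
  let G₀ : Subgroup G := (LS0 Λ n).comap c'
  have hfi : G₀.FiniteIndex := by
    have hdec : ∀ g : G, ∃ a ∈ LS0 Λ n, ∃ (φ : MulAut (Gp Λ n)) (σ : Equiv.Perm V),
        Sy φ σ ∧ c g = a * φ := fun g => LS_decomp (hc g)
    choose a ha φ σ hφ hcg using hdec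
    have hfin : Finite (G ⧸ G₀) := by
      refine Finite.of_injective (fun q : G ⧸ G₀ => σ (Quotient.out q)⁻¹) ?_
      intro q q' h
      dsimp only at h
      rw [← QuotientGroup.out_eq' q, ← QuotientGroup.out_eq' q', QuotientGroup.eq]
      change c ((Quotient.out q)⁻¹ * Quotient.out q') ∈ LS0 Λ n
      have h1 : φ (Quotient.out q)⁻¹ = φ (Quotient.out q')⁻¹ := by
        have h2 : ∀ v, (φ (Quotient.out q)⁻¹) (x Λ n v) = (φ (Quotient.out q')⁻¹) (x Λ n v) := by
          intro v
          rw [(hφ _).2.2, (hφ _).2.2, h]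
        have h3 : (φ (Quotient.out q)⁻¹).toMonoidHom = (φ (Quotient.out q')⁻¹).toMonoidHom :=
          hom_ext h2
        ext y
        exact DFunLike.congr_fun h3 y
      have h2 : c ((Quotient.out q)⁻¹ * Quotient.out q') =
          c (Quotient.out q)⁻¹ * (c (Quotient.out q')⁻¹)⁻¹ := by
        rw [hmul]
        congr 1
        rw [eq_inv_iff_mul_eq_one, ← hmul, mul_inv_cancel]
        exact c'.map_one
      rw [h2, hcg, hcg, h1]
      have h3 : a (Quotient.out q)⁻¹ * φ (Quotient.out q')⁻¹ *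
          (a (Quotient.out q')⁻¹ * φ (Quotient.out q')⁻¹)⁻¹ =
          a (Quotient.out q)⁻¹ * (a (Quotient.out q')⁻¹)⁻¹ := by group
      rw [h3]
      exact Subgroup.mul_mem _ (ha _) (Subgroup.inv_mem _ (ha _))
    exact Subgroup.finiteIndex_of_finite_quotient
  -- inner automorphisms are in `LS0`
  have hle : j.range ≤ G₀ := by
    rintro _ ⟨z, rfl⟩
    change c (j z) ∈ LS0 Λ n
    rw [← huniq (j z) (MulAut.conj z) fun y => by
      rw [MulAut.conj_apply, map_mul, map_mul, map_inv]]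
    exact conj_mem z
  let j₀ : Gp Λ n →* G₀ := j.codRestrict G₀ fun z => hle ⟨z, rfl⟩
  have hj₀ : Function.Injective j₀ := fun a b h => hj (congrArg Subtype.val h)
  let f : G₀ →* G ⧸ j.range := (QuotientGroup.mk' j.range).comp G₀.subtype
  have hker : j₀.range = f.ker := by
    ext z
    rw [MonoidHom.mem_ker]
    constructor
    · rintro ⟨y, rfl⟩
      exact (QuotientGroup.eq_one_iff _).mpr ⟨y, rfl⟩
    · intro h
      obtain ⟨y, hy⟩ := (QuotientGroup.eq_one_iff (z : G)).mp h
      exact ⟨y, Subtype.ext hy⟩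
  have hN₀ : j₀.range.Normal := by
    rw [hker]
    infer_instance
  have hQ₀ : C (G₀ ⧸ j₀.range) := by
    refine C_equiv hC.base (QuotientGroup.quotientMulEquivOfEq hker) ?_
    exact hC.base.of_injective _ _ (QuotientGroup.kerLift f) (QuotientGroup.kerLift_injective f) hQ
  have h1 : C G₀ := by
    refine main0 hC hF hA (Nat.card V) V rfl Λ n G₀ j₀ hj₀ (fun g => ⟨c g, g.2, fun y => ?_⟩) hQ₀
    apply Subtype.ext
    exact hcj g y
  exact hC.base.finiteIndex G G₀ hfi h1

end Pool.Agent.W2helper32.GP
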