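import Pool.Agent.W2helper32.GP.Base

/-!
# Automorphisms of graph products of cyclic groups
-/

set_option autoImplicit false

open scoped Classical

noncomputable section

namespace Pool.Agent.W2helper32.GP

section defs

variable {V : Type} (Λ : SimpleGraph V) (n : V → ℕ)

/-- factor automorphisms: `v ↦ v ^ m` for one vertex `v` -/
def IsF (α : MulAut (Gp Λ n)) : Prop := ∃ (v : V) (m m' : ℤ), (n v : ℤ) ∣ m * m' - 1 ∧
  α (x Λ n v) = x Λ n v ^ m ∧ ∀ u, u ≠ v → α (x Λ n u) = x Λ n u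

/-- `v` is dominated by `w` -/
def Dom (v w : V) : Prop := v ≠ w ∧ (n v = 0 ∨ Λ.Adj v w) ∧ ∀ u, Λ.Adj v u → u = w ∨ Λ.Adj w u

/-- dominated transvections `v ↦ v w ^ k` -/
def IsT (α : MulAut (Gp Λ n)) : Prop := ∃ (v w : V) (k : ℤ), Dom Λ n v w ∧
  α (x Λ n v) = x Λ n v * x Λ n w ^ k ∧ ∀ u, u ≠ v → α (x Λ n u) = x Λ n u

/-- partial conjugations: the vertices of a union `Y` of components of the complement of the star of
`v` are conjugated by a power of `v` -/
def IsC (α : MulAut (Gp Λ n)) : Prop := ∃ (v : V) (k : ℤ) (Y : Set V),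
  (∀ y ∈ Y, y ≠ v ∧ ¬ Λ.Adj v y) ∧ (∀ y ∈ Y, ∀ z, Λ.Adj y z → z ∈ Y ∨ Λ.Adj v z) ∧
  (∀ y ∈ Y, α (x Λ n y) = x Λ n v ^ k * x Λ n y * (x Λ n v ^ k)⁻¹) ∧
  ∀ y, y ∉ Y → α (x Λ n y) = x Λ n y

/-- graph symmetries -/
def IsS (α : MulAut (Gp Λ n)) : Prop := ∃ σ : Equiv.Perm V, (∀ u v, Λ.Adj (σ u) (σ v) ↔ Λ.Adj u v) ∧
  (∀ v, n (σ v) = n v) ∧ ∀ v, α (x Λ n v) = x Λ n (σ v)

/-- the elementary automorphisms except the symmetries -/
def El (α : MulAut (Gp Λ n)) : Prop := IsF Λ n α ∨ IsT Λ n α ∨ IsC Λ n α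

/-- the group generated by factor automorphisms, dominated transvections, partial conjugations -/
def LS0 : Subgroup (MulAut (Gp Λ n)) := Subgroup.closure {α | El Λ n α}

/-- the group generated by factor automorphisms, dominated transvections, partial conjugations and
graph symmetries -/
def LS : Subgroup (MulAut (Gp Λ n)) := Subgroup.closure {α | El Λ n α ∨ IsS Λ n α}

end defs

section basic

variable {V : Type} {Λ : SimpleGraph V} {n : V → ℕ}

theorem inv_fix {α : MulAut (Gp Λ n)} {y : Gp Λ n} (h : α y = y) : α⁻¹ y = y := by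
  conv_lhs => rw [← h]
  exact α.symm_apply_apply y

theorem inv_eq {α : MulAut (Gp Λ n)} {y z : Gp Λ n} (h : α z = y) : α⁻¹ y = z := by
  rw [← h]
  exact α.symm_apply_apply z

theorem zpow_dvd {v : V} {m : ℤ} (h : (n v : ℤ) ∣ m - 1) : x Λ n v ^ m = x Λ n v := by
  obtain ⟨c, hc⟩ := h
  have h1 : m = n v * c + 1 := by linarith
  rw [h1, zpow_add, zpow_mul, zpow_natCast, x_pow, one_zpow, one_mul, zpow_one]

theorem IsF.inv {α : MulAut (Gp Λ n)} (h : IsF Λ n α) : IsF Λ n α⁻¹ := by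
  obtain ⟨v, m, m', hm, h1, h2⟩ := h
  refine ⟨v, m', m, by rwa [mul_comm], inv_eq ?_, fun u hu => inv_fix (h2 u hu)⟩
  rw [map_zpow, h1, ← zpow_mul]
  exact zpow_dvd hm

theorem IsT.inv {α : MulAut (Gp Λ n)} (h : IsT Λ n α) : IsT Λ n α⁻¹ := by
  obtain ⟨v, w, k, hd, h1, h2⟩ := h
  refine ⟨v, w, -k, hd, inv_eq ?_, fun u hu => inv_fix (h2 u hu)⟩
  rw [map_mul, map_zpow, h1, h2 w hd.1.symm, mul_assoc, ← zpow_add, add_neg_cancel, zpow_zero,
    mul_one]

theorem IsC.inv {α : MulAut (Gp Λ n)} (h : IsC Λ n α) : IsC Λ n α⁻¹ := by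
  obtain ⟨v, k, Y, hY, hY', h1, h2⟩ := h
  have hv : α (x Λ n v) = x Λ n v := h2 v fun hv => (hY v hv).1 rfl
  refine ⟨v, -k, Y, hY, hY', fun y hy => inv_eq ?_, fun y hy => inv_fix (h2 y hy)⟩
  rw [map_mul, map_mul, map_inv, map_zpow, hv, h1 y hy, zpow_neg]
  group

theorem El.inv {α : MulAut (Gp Λ n)} (h : El Λ n α) : El Λ n α⁻¹ := by
  rcases h with h | h | h
  · exact Or.inl h.inv
  · exact Or.inr (Or.inl h.inv)
  · exact Or.inr (Or.inr h.inv)

theorem aut_eq_one {α : MulAut (Gp Λ n)} (h : ∀ v, α (x Λ n v) = x Λ n v) : α = 1 := by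
  have h1 : α.toMonoidHom = MonoidHom.id _ := hom_ext h
  ext y
  exact DFunLike.congr_fun h1 y

end basic

/-! ### induced automorphisms -/

section induced

variable {V : Type} {Λ : SimpleGraph V} {n : V → ℕ} {S : Set V}

/-- the induced graph on the complement -/
abbrev Λc (Λ : SimpleGraph V) (S : Set V) : SimpleGraph {v // v ∉ S} :=
  Λ.comap (Subtype.val : {v // v ∉ S} → V)

/-- the orders on the complement -/
abbrev nc (n : V → ℕ) (S : Set V) : {v // v ∉ S} → ℕ := fun v => n v.1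

/-- the retraction which kills `S` -/
abbrev rS (Λ : SimpleGraph V) (n : V → ℕ) (S : Set V) : Gp Λ n →* Pt Λ n S :=
  rt Λ n (fun v => v ∉ S)

/-- the inclusion of the rest -/
abbrev sS (Λ : SimpleGraph V) (n : V → ℕ) (S : Set V) : Pt Λ n S →* Gp Λ n :=
  sc Λ n (fun v => v ∉ S)

/-- the generators of the rest -/
abbrev xS (Λ : SimpleGraph V) (n : V → ℕ) (S : Set V) (v : {v // v ∉ S}) : Pt Λ n S :=
  x (Λc Λ S) (nc n S) v

theorem rS_in {v : V} (h : v ∈ S) : rS Λ n S (x Λ n v) = 1 := rt_x' Λ n _ (fun h' => h' h)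

theorem rS_out {v : V} (h : v ∉ S) : rS Λ n S (x Λ n v) = xS Λ n S ⟨v, h⟩ := rt_x Λ n _ h

theorem sS_x (v : {v // v ∉ S}) : sS Λ n S (xS Λ n S v) = x Λ n v.1 := sc_x Λ n _ v

theorem rS_sS (y : Pt Λ n S) : rS Λ n S (sS Λ n S y) = y := rt_sc Λ n _ y

/-- `S` is closed under domination -/
def Up (Λ : SimpleGraph V) (n : V → ℕ) (S : Set V) : Prop := ∀ v ∈ S, ∀ w, Dom Λ n v w → w ∈ S

theorem El_kill (hS : Up Λ n S) {α : MulAut (Gp Λ n)} (h : El Λ n α) {v : V} (hv : v ∈ S) :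
    rS Λ n S (α (x Λ n v)) = 1 := by
  rcases h with ⟨u, m, m', -, h1, h2⟩ | ⟨u, w, k, hd, h1, h2⟩ | ⟨u, k, Y, -, -, h1, h2⟩
  · by_cases h : v = u
    · subst h
      rw [h1, map_zpow, rS_in hv, one_zpow]
    · rw [h2 v h, rS_in hv]
  · by_cases h : v = u
    · subst h
      rw [h1, map_mul, map_zpow, rS_in hv, rS_in (hS v hv w hd), one_zpow, one_mul]
    · rw [h2 v h, rS_in hv]
  · by_cases h : v ∈ Y
    · rw [h1 v h, map_mul, map_mul, rS_in hv, mul_one, map_inv, mul_inv_cancel]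
    · rw [h2 v h, rS_in hv]

theorem El_factor (hS : Up Λ n S) {α : MulAut (Gp Λ n)} (h : El Λ n α) (y : Gp Λ n) :
    rS Λ n S (α y) = rS Λ n S (α (sS Λ n S (rS Λ n S y))) := by
  have h1 : (rS Λ n S).comp α.toMonoidHom =
      ((rS Λ n S).comp (α.toMonoidHom.comp (sS Λ n S))).comp (rS Λ n S) := by
    apply hom_ext
    intro v
    change rS Λ n S (α (x Λ n v)) = rS Λ n S (α (sS Λ n S (rS Λ n S (x Λ n v))))
    by_cases hv : v ∈ S
    · rw [El_kill hS h hv, rS_in hv, map_one, map_one, map_one]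
    · rw [rS_out hv, sS_x]
  exact DFunLike.congr_fun h1 y

/-- the automorphism induced by an elementary automorphism -/
def bt (hS : Up Λ n S) {α : MulAut (Gp Λ n)} (h : El Λ n α) : MulAut (Pt Λ n S) :=
  MonoidHom.toMulEquiv ((rS Λ n S).comp (α.toMonoidHom.comp (sS Λ n S)))
    ((rS Λ n S).comp (α⁻¹.toMonoidHom.comp (sS Λ n S)))
    (by
      refine MonoidHom.ext fun y => ?_
      change rS Λ n S (α⁻¹ (sS Λ n S (rS Λ n S (α (sS Λ n S y))))) = y
      rw [← El_factor hS h.inv]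
      have : α⁻¹ (α (sS Λ n S y)) = sS Λ n S y := α.symm_apply_apply _
      rw [this, rS_sS])
    (by
      refine MonoidHom.ext fun y => ?_
      change rS Λ n S (α (sS Λ n S (rS Λ n S (α⁻¹ (sS Λ n S y))))) = y
      rw [← El_factor hS h]
      have : α (α⁻¹ (sS Λ n S y)) = sS Λ n S y := α.apply_symm_apply _
      rw [this, rS_sS])

theorem bt_apply (hS : Up Λ n S) {α : MulAut (Gp Λ n)} (h : El Λ n α) (y : Pt Λ n S) :
    bt hS h y = rS Λ n S (α (sS Λ n S y)) := rfl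

theorem bt_x (hS : Up Λ n S) {α : MulAut (Gp Λ n)} (h : El Λ n α) (v : {v // v ∉ S}) :
    bt hS h (xS Λ n S v) = rS Λ n S (α (x Λ n v.1)) := by
  rw [bt_apply, sS_x]

theorem bt_mem (hS : Up Λ n S) {α : MulAut (Gp Λ n)} (h : El Λ n α) :
    bt hS h ∈ LS0 (Λc Λ S) (nc n S) := by
  have h' := h
  rcases h with ⟨u, m, m', hm, h1, h2⟩ | ⟨u, w, k, hd, h1, h2⟩ | ⟨u, k, Y, hY, hY', h1, h2⟩
  · by_cases hu : u ∈ S
    · have : bt hS h' = 1 := by
        apply aut_eq_one
        intro v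
        change bt hS h' (xS Λ n S v) = xS Λ n S v
        rw [bt_x, h2 v.1 (fun h => v.2 (h ▸ hu)), rS_out v.2]
      rw [this]
      exact Subgroup.one_mem _
    · apply Subgroup.subset_closure
      refine Or.inl ⟨⟨u, hu⟩, m, m', hm, ?_, ?_⟩
      · change bt hS h' (xS Λ n S ⟨u, hu⟩) = xS Λ n S ⟨u, hu⟩ ^ m
        rw [bt_x]
        change rS Λ n S (α (x Λ n u)) = _
        rw [h1, map_zpow, rS_out hu]
      · intro v hv
        change bt hS h' (xS Λ n S v) = xS Λ n S v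
        rw [bt_x, h2 v.1 (fun h => hv (Subtype.ext h)), rS_out v.2]
  · by_cases hc : u ∉ S ∧ w ∉ S
    · obtain ⟨hu, hw⟩ := hc
      apply Subgroup.subset_closure
      refine Or.inr (Or.inl ⟨⟨u, hu⟩, ⟨w, hw⟩, k, ⟨?_, hd.2.1, ?_⟩, ?_, ?_⟩)
      · exact fun h => hd.1 (congrArg Subtype.val h)
      · intro v hv
        rcases hd.2.2 v.1 hv with h | h
        · exact Or.inl (Subtype.ext h)
        · exact Or.inr h
      · change bt hS h' (xS Λ n S ⟨u, hu⟩) = xS Λ n S ⟨u, hu⟩ * xS Λ n S ⟨w, hw⟩ ^ k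
        rw [bt_x]
        change rS Λ n S (α (x Λ n u)) = _
        rw [h1, map_mul, map_zpow, rS_out hu, rS_out hw]
      · intro v hv
        change bt hS h' (xS Λ n S v) = xS Λ n S v
        rw [bt_x, h2 v.1 (fun h => hv (Subtype.ext h)), rS_out v.2]
    · have hw : u ∈ S ∨ w ∈ S := by
        by_contra h
        push Not at h
        exact hc h
      have : bt hS h' = 1 := by
        apply aut_eq_one
        intro v
        change bt hS h' (xS Λ n S v) = xS Λ n S v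
        rw [bt_x]
        by_cases h : v.1 = u
        · have hw' : w ∈ S := by
            rcases hw with h3 | h3
            · exact absurd (h ▸ h3) v.2
            · exact h3
          rw [h, h1, map_mul, map_zpow, rS_in hw', one_zpow, mul_one, ← h, rS_out v.2]
        · rw [h2 v.1 h, rS_out v.2]
      rw [this]
      exact Subgroup.one_mem _
  · by_cases hu : u ∈ S
    · have : bt hS h' = 1 := by
        apply aut_eq_one
        intro v
        change bt hS h' (xS Λ n S v) = xS Λ n S v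
        rw [bt_x]
        by_cases h : v.1 ∈ Y
        · rw [h1 v.1 h, map_mul, map_mul, map_inv, map_zpow, rS_in hu, one_zpow, one_mul, inv_one,
            mul_one, rS_out v.2]
        · rw [h2 v.1 h, rS_out v.2]
      rw [this]
      exact Subgroup.one_mem _
    · apply Subgroup.subset_closure
      refine Or.inr (Or.inr ⟨⟨u, hu⟩, k, {v | v.1 ∈ Y}, ?_, ?_, ?_, ?_⟩)
      · intro y hy
        exact ⟨fun h => (hY y.1 hy).1 (congrArg Subtype.val h), (hY y.1 hy).2⟩
      · intro y hy z hz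
        exact hY' y.1 hy z.1 hz
      · intro y hy
        change bt hS h' (xS Λ n S y) = xS Λ n S ⟨u, hu⟩ ^ k * xS Λ n S y *
          (xS Λ n S ⟨u, hu⟩ ^ k)⁻¹
        rw [bt_x, h1 y.1 hy, map_mul, map_mul, map_inv, map_zpow, rS_out hu, rS_out y.2]
      · intro y hy
        change bt hS h' (xS Λ n S y) = xS Λ n S y
        rw [bt_x, h2 y.1 hy, rS_out y.2]

/-- automorphisms in `LS0` induce automorphisms in `LS0` -/
theorem induce (hS : Up Λ n S) {α : MulAut (Gp Λ n)} (h : α ∈ LS0 Λ n) :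
    ∃ β ∈ LS0 (Λc Λ S) (nc n S), ∀ y, rS Λ n S (α y) = β (rS Λ n S y) := by
  unfold LS0 at h
  induction h using Subgroup.closure_induction with
  | mem α h => exact ⟨bt hS h, bt_mem hS h, fun y => by rw [bt_apply, El_factor hS h]⟩
  | one => exact ⟨1, Subgroup.one_mem _, fun y => rfl⟩
  | mul α α' _ _ h h' =>
    obtain ⟨β, hβ, h1⟩ := h
    obtain ⟨β', hβ', h1'⟩ := h'
    refine ⟨β * β', Subgroup.mul_mem _ hβ hβ', fun y => ?_⟩
    change rS Λ n S (α (α' y)) = β (β' (rS Λ n S y))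
    rw [h1, h1']
  | inv α _ h =>
    obtain ⟨β, hβ, h1⟩ := h
    refine ⟨β⁻¹, Subgroup.inv_mem _ hβ, fun y => ?_⟩
    have h2 := h1 (α⁻¹ y)
    have h3 : α (α⁻¹ y) = y := α.apply_symm_apply y
    rw [h3] at h2
    rw [h2]
    exact (β.symm_apply_apply _).symm

end induced

/-! ### maximal classes -/

section maxi

variable {V : Type} {Λ : SimpleGraph V} {n : V → ℕ}

variable (Λ n) in
/-- the domination preorder -/
def Le (v w : V) : Prop := v = w ∨ Dom Λ n v w

theorem Le.trans {v w u : V} (h1 : Le Λ n v w) (h2 : Le Λ n w u) : Le Λ n v u := by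
  rcases h1 with rfl | ⟨h1, h1', h1''⟩
  · exact h2
  rcases h2 with rfl | ⟨h2, h2', h2''⟩
  · exact Or.inr ⟨h1, h1', h1''⟩
  by_cases hvu : v = u
  · exact Or.inl hvu
  refine Or.inr ⟨hvu, ?_, ?_⟩
  · rcases h1' with h | h
    · exact Or.inl h
    · rcases h2'' v h.symm with h3 | h3
      · exact absurd h3 hvu
      · exact Or.inr h3.symm
  · intro z hz
    rcases h1'' z hz with rfl | h3
    · -- `z = w`
      rcases h2'' v hz.symm with h4 | h4
      · exact absurd h4 hvu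
      · rcases h1'' u h4.symm with h5 | h5
        · exact absurd h5.symm h2
        · exact Or.inr h5.symm
    · exact h2'' z h3

/-- `S` is a maximal class -/
def IsMax (Λ : SimpleGraph V) (n : V → ℕ) (S : Set V) : Prop :=
  Up Λ n S ∧ ∀ v ∈ S, ∀ w ∈ S, v ≠ w → Dom Λ n v w

theorem exists_max [Finite V] [Nonempty V] : ∃ S : Set V, S.Nonempty ∧ IsMax Λ n S := by
  -- a vertex with the smallest number of vertices above it
  obtain ⟨m, hm⟩ : ∃ m : V, ∀ w, Le Λ n m w → Le Λ n w m := by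
    have h1 : ∃ m : V, ∀ w, Nat.card {u // Le Λ n m u} ≤ Nat.card {u // Le Λ n w u} := by
      exact Finite.exists_min fun m : V => Nat.card {u // Le Λ n m u}
    obtain ⟨m, hm⟩ := h1
    refine ⟨m, fun w hw => ?_⟩
    by_contra hcon
    have h2 := hm w
    have h3 : {u | Le Λ n w u} ⊂ {u | Le Λ n m u} := by
      refine ⟨fun u hu => hw.trans hu, fun h => hcon ?_⟩
      exact h (Or.inl rfl)
    have h4 := Set.ncard_lt_ncard h3 (Set.toFinite _)
    exact absurd h2 (not_le.mpr h4)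
  refine ⟨{v | Le Λ n m v}, ⟨m, Or.inl rfl⟩, ?_, ?_⟩
  · intro v hv w hw
    exact Le.trans hv (Or.inr hw)
  · intro v hv w hw hvw
    rcases (hm v hv).trans hw with h | h
    · exact absurd h hvw
    · exact h

theorem IsMax.isMod {S : Set V} (h : IsMax Λ n S) : IsMod Λ S := by
  intro s hs t ht w hw hsw
  by_cases hst : s = t
  · rwa [← hst]
  rcases (h.2 s hs t ht hst).2.2 w hsw with h1 | h1
  · exact absurd (h1 ▸ ht) hw
  · exact h1

/-- a maximal class is a clique or an independent set of vertices of infinite order -/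
theorem IsMax.cases {S : Set V} (h : IsMax Λ n S) :
    (∀ s ∈ S, ∀ t ∈ S, s ≠ t → Λ.Adj s t) ∨ (∀ s ∈ S, n s = 0 ∧ ∀ t ∈ S, ¬ Λ.Adj s t) := by
  by_cases hcl : ∀ s ∈ S, ∀ t ∈ S, s ≠ t → Λ.Adj s t
  · exact Or.inl hcl
  right
  push Not at hcl
  obtain ⟨s, hs, t, ht, hst, hnst⟩ := hcl
  have h0 : ∀ a ∈ S, ∀ b ∈ S, a ≠ b → ¬ Λ.Adj a b → ∀ u ∈ S, ¬ Λ.Adj a u := by
    intro a ha b hb hab hnab u hu hau
    have hub : u ≠ b := fun h => hnab (h ▸ hau)
    rcases (h.2 u hu b hb hub).2.2 a hau.symm with h1 | h1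
    · exact hab h1
    · exact hnab h1.symm
  have h1 : ∀ u ∈ S, ∀ v ∈ S, ¬ Λ.Adj u v := by
    intro u hu v hv huv
    by_cases hus : u = s
    · subst hus
      exact h0 u hs t ht hst hnst v hv huv
    · rcases (h.2 u hu s hs hus).2.2 v huv with h2 | h2
      · subst h2
        exact h0 v hs t ht hst hnst u hu huv.symm
      · exact h0 s hs t ht hst hnst v hv h2
  intro u hu
  refine ⟨?_, h1 u hu⟩
  by_cases hus : u = s
  · have h3 := (h.2 u hu t ht (fun h4 => hst (hus ▸ h4))).2.1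
    rcases h3 with h3 | h3
    · exact h3
    · exact absurd h3 (h1 u hu t ht)
  · rcases (h.2 u hu s hs hus).2.1 with h3 | h3
    · exact h3
    · exact absurd h3 (h1 u hu s hs)

/-- elements of `LS0` map the group of a maximal clique class to a conjugate -/
theorem conj_class {S : Set V} (h : IsMax Λ n S) (hcl : ∀ s ∈ S, ∀ t ∈ S, s ≠ t → Λ.Adj s t)
    {α : MulAut (Gp Λ n)} (hα : α ∈ LS0 Λ n) : ∃ m : Gp Λ n, ∀ y,
      y ∈ (sc Λ n (fun v => v ∈ S)).range ↔ m * α y * m⁻¹ ∈ (sc Λ n (fun v => v ∈ S)).range := by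
  set A := (sc Λ n (fun v => v ∈ S)).range with hA
  have hxA : ∀ s ∈ S, x Λ n s ∈ A := fun s hs =>
    ⟨xi Λ n (fun v => v ∈ S) ⟨s, hs⟩, sc_x Λ n _ _⟩
  have hgen : ∀ K : Subgroup (Gp Λ n), (∀ s ∈ S, x Λ n s ∈ K) → A ≤ K := by
    rintro K hK _ ⟨b, rfl⟩
    have h1 : b ∈ K.comap (sc Λ n (fun v => v ∈ S)) := by
      apply le_of_gen
      intro v
      rw [Subgroup.mem_comap]
      erw [sc_x]
      exact hK v.1 v.2
    exact h1
  unfold LS0 at hα
  induction hα using Subgroup.closure_induction with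
  | mem α hα =>
    -- automorphisms which preserve the group together with their inverses
    have key : ∀ α : MulAut (Gp Λ n), (∀ s ∈ S, α (x Λ n s) ∈ A) → (∀ s ∈ S, α⁻¹ (x Λ n s) ∈ A) →
        ∃ m : Gp Λ n, ∀ y, y ∈ A ↔ m * α y * m⁻¹ ∈ A := by
      intro α h1 h2
      refine ⟨1, fun y => ?_⟩
      rw [one_mul, inv_one, mul_one]
      have h3 : A ≤ A.comap α.toMonoidHom := hgen _ h1
      have h4 : A ≤ A.comap (α⁻¹).toMonoidHom := hgen _ h2
      refine ⟨fun hy => h3 hy, fun hy => ?_⟩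
      have h5 := h4 hy
      have h6 : α⁻¹ (α y) = y := α.symm_apply_apply y
      change α⁻¹ (α y) ∈ A at h5
      rwa [h6] at h5
    have hFT : ∀ α : MulAut (Gp Λ n), IsF Λ n α ∨ IsT Λ n α → ∀ s ∈ S, α (x Λ n s) ∈ A := by
      rintro α (⟨v, m, m', -, h1, h2⟩ | ⟨v, w, k, hd, h1, h2⟩) s hs
      · by_cases hsv : s = v
        · subst hsv
          rw [h1]
          exact A.zpow_mem (hxA s hs) m
        · rw [h2 s hsv]
          exact hxA s hs
      · by_cases hsv : s = v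
        · subst hsv
          rw [h1]
          exact A.mul_mem (hxA s hs) (A.zpow_mem (hxA w (h.1 s hs w hd)) k)
        · rw [h2 s hsv]
          exact hxA s hs
    rcases hα with hα | hα | hα
    · exact key α (hFT α (Or.inl hα)) (hFT _ (Or.inl hα.inv))
    · exact key α (hFT α (Or.inr hα)) (hFT _ (Or.inr hα.inv))
    · obtain ⟨v, k, Y, hY, hY', h1, h2⟩ := hα
      by_cases hYS : ∃ y ∈ Y, y ∈ S
      · obtain ⟨y₀, hy₀, hy₀S⟩ := hYS
        have hall : ∀ s ∈ S, s ∈ Y := by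
          intro s hs
          by_cases hsy : s = y₀
          · rwa [hsy]
          rcases hY' y₀ hy₀ s (hcl y₀ hy₀S s hs (Ne.symm hsy)) with h3 | h3
          · exact h3
          · exfalso
            rcases (h.2 s hs y₀ hy₀S hsy).2.2 v h3.symm with h4 | h4
            · exact (hY y₀ hy₀).1 h4.symm
            · exact (hY y₀ hy₀).2 h4.symm
        have h3 : ∀ y ∈ A, α y = x Λ n v ^ k * y * (x Λ n v ^ k)⁻¹ := by
          intro y hy
          have h4 : A ≤ (MonoidHom.eqLocus α.toMonoidHom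
              (MulAut.conj (x Λ n v ^ k)).toMonoidHom) := hgen _ fun s hs => h1 s (hall s hs)
          exact h4 hy
        refine ⟨(x Λ n v ^ k)⁻¹, fun y => ?_⟩
        constructor
        · intro hy
          rw [h3 y hy]
          have : (x Λ n v ^ k)⁻¹ * (x Λ n v ^ k * y * (x Λ n v ^ k)⁻¹) * ((x Λ n v ^ k)⁻¹)⁻¹ = y := by
            group
          rwa [this]
        · intro hy
          have h4 := h3 _ hy
          have h5 : x Λ n v ^ k * ((x Λ n v ^ k)⁻¹ * α y * ((x Λ n v ^ k)⁻¹)⁻¹) *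
              (x Λ n v ^ k)⁻¹ = α y := by group
          rw [h5] at h4
          rwa [← α.injective h4]
      · push Not at hYS
        have h3 : ∀ s ∈ S, α (x Λ n s) = x Λ n s := fun s hs => h2 s fun h => hYS s h hs
        exact key α (fun s hs => by rw [h3 s hs]; exact hxA s hs)
          (fun s hs => by rw [inv_fix (h3 s hs)]; exact hxA s hs)
  | one => exact ⟨1, fun y => by
      rw [one_mul, inv_one, mul_one]
      rfl⟩
  | mul α α' _ _ h1 h2 =>
    obtain ⟨m, hm⟩ := h1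
    obtain ⟨m', hm'⟩ := h2
    refine ⟨m * α m', fun y => ?_⟩
    rw [hm', hm]
    have : m * α (m' * α' y * m'⁻¹) * m⁻¹ = m * α m' * (α * α') y * (m * α m')⁻¹ := by
      rw [map_mul, map_mul, map_inv, mul_inv_rev]
      change m * (α m' * α (α' y) * (α m')⁻¹) * m⁻¹ = m * α m' * α (α' y) * ((α m')⁻¹ * m⁻¹)
      group
    rw [this]
  | inv α _ h1 =>
    obtain ⟨m, hm⟩ := h1
    refine ⟨α⁻¹ m⁻¹, fun y => ?_⟩
    have hαα : ∀ z, α (α⁻¹ z) = z := fun z => α.apply_symm_apply z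
    rw [hm (α⁻¹ m⁻¹ * α⁻¹ y * (α⁻¹ m⁻¹)⁻¹)]
    have : m * α (α⁻¹ m⁻¹ * α⁻¹ y * (α⁻¹ m⁻¹)⁻¹) * m⁻¹ = y := by
      simp only [map_mul, map_inv, hαα]
      group
    rw [this]

end maxi

end Pool.Agent.W2helper32.GP
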